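import Mathlib

/-!
MO-PROJECT (helper182): Q2 of MP_9de1de_an (Morera with the single circles `|ζ - z| = α (1 - |z|)`,
`f` continuous on the open disc only) has a negative answer for every `0 < α < 1`: there is a smooth
radial non-analytic `f`.  Definitions and task statements.
-/

set_option autoImplicit false

open MeasureTheory Set Filter Topology
open scoped ContDiff Real

namespace Pool.Agent.H182R3.MO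

/-- `|r + a (1 - r) e^{it}|^2` -/
noncomputable def UU (a r t : ℝ) : ℝ := r ^ 2 + (a * (1 - r)) ^ 2 + 2 * (r * (a * (1 - r))) * Real.cos t

/-- the largest value of `UU a q t` -/
noncomputable def BB (a q : ℝ) : ℝ := (a + (1 - a) * q) ^ 2

/-- the circle integral of the radial function `h (|ζ| ^ 2)` (real form) -/
noncomputable def EE (a : ℝ) (h : ℝ → ℝ) (r : ℝ) : ℝ :=
  ∫ t in (0 : ℝ)..π, h (UU a r t) * Real.cos t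

/-- **Task V**: smooth Volterra equations of the second kind. -/
def TaskV : Prop := ∀ (M : ℝ → ℝ → ℝ) (g : ℝ → ℝ) (r0 r1 : ℝ), r0 < r1 →
  ContDiff ℝ ∞ (fun p : ℝ × ℝ => M p.1 p.2) → ContDiff ℝ ∞ g → (∀ r ≤ r0, g r = 0) →
  ∃ w : ℝ → ℝ, ContDiff ℝ ∞ w ∧ (∀ r ≤ r0, w r = 0) ∧
    ∀ r ∈ Icc r0 r1, w r = g r + ∫ q in r0..r, M r q * w q

/-- **Task P**: composition of two half integrals (polar coordinates). -/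
def TaskP : Prop := ∀ (Φ : ℝ → ℝ → ℝ) (r0 : ℝ), Continuous (fun p : ℝ × ℝ => Φ p.1 p.2) →
  (∀ s q, q ≤ r0 → Φ s q = 0) → ∀ r, r0 ≤ r →
  ∫ y : ℝ, ∫ x : ℝ, Φ (r - y ^ 2) (r - y ^ 2 - x ^ 2) =
    ∫ q in r0..r, (1 / 2) * ∫ θ in (-π)..π, Φ (r - (r - q) * Real.sin θ ^ 2) q

/-- **Task C**: the circle integral as an Abel type integral with a smooth kernel. -/
def TaskC : Prop := ∀ (a r0 r1 : ℝ), 0 < a → a < 1 → 0 < r0 → r0 < r1 → r1 < 1 →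
  (∀ r ∈ Icc r0 r1, ((1 + a) * r - a) ^ 2 < BB a r0) →
  ∃ k : ℝ → ℝ → ℝ, ContDiff ℝ ∞ (fun p : ℝ × ℝ => k p.1 p.2) ∧ (∀ r ∈ Icc r0 r1, 0 < k r r) ∧
    ∀ v w : ℝ → ℝ, Continuous v → Continuous w → (∀ u ≤ BB a r0, v u = 0) →
      (∀ q ≤ r0, w q = 0) → (∀ q, r0 ≤ q → w q = v (BB a q)) →
      ∀ r ∈ Icc r0 r1, EE a v r = ∫ x : ℝ, w (r - x ^ 2) * k r (r - x ^ 2)

/-- **Task F**: from the radial equation to the contour integrals. -/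
def TaskF : Prop := ∀ (a : ℝ), 0 < a → a < 1 → ∀ h : ℝ → ℝ, ContDiffOn ℝ ∞ h (Iio 1) →
  (∀ r, 0 ≤ r → r < 1 → EE a h r = 0) → (∃ c, 0 < c ∧ ∀ u ≤ c, h u = 0) →
  (∃ u, 0 < u ∧ u < 1 ∧ h u ≠ 0) →
  ContDiffOn ℝ ∞ (fun z : ℂ => ((h (‖z‖ ^ 2) : ℝ) : ℂ)) (Metric.ball 0 1) ∧
  (∀ z : ℂ, ‖z‖ < 1 →
    circleIntegral (fun z : ℂ => ((h (‖z‖ ^ 2) : ℝ) : ℂ)) z (a * (1 - ‖z‖)) = 0) ∧
  ¬ AnalyticOn ℂ (fun z : ℂ => ((h (‖z‖ ^ 2) : ℝ) : ℂ)) (Metric.ball 0 1)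

/-- the Abel type equation of the first kind, smooth right hand side -/
def Solver : Prop := ∀ (k : ℝ → ℝ → ℝ) (r0 r1 : ℝ), r0 < r1 →
  ContDiff ℝ ∞ (fun p : ℝ × ℝ => k p.1 p.2) → (∀ r ∈ Icc r0 r1, 0 < k r r) →
  ∀ e : ℝ → ℝ, ContDiff ℝ ∞ e → (∀ r ≤ r0, e r = 0) →
  ∃ w : ℝ → ℝ, ContDiff ℝ ∞ w ∧ (∀ q ≤ r0, w q = 0) ∧
    ∀ r ∈ Icc r0 r1, ∫ x : ℝ, w (r - x ^ 2) * k r (r - x ^ 2) = e r

/-- **Goal** -/
def Goal : Prop := ∀ a : ℝ, 0 < a → a < 1 → ∃ h : ℝ → ℝ, ContDiffOn ℝ ∞ h (Iio 1) ∧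
  (∀ r, 0 ≤ r → r < 1 → EE a h r = 0) ∧ (∃ c, 0 < c ∧ ∀ u ≤ c, h u = 0) ∧
  (∃ u, 0 < u ∧ u < 1 ∧ h u ≠ 0)

end Pool.Agent.H182R3.MO
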