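import Pool.Agent.H182R3.MO.Solver

set_option autoImplicit false

open MeasureTheory Set Filter Topology
open scoped ContDiff Real

namespace Pool.Agent.H182R3.MO

theorem UU_le {a r : ℝ} (ha : 0 < a) (hr0 : 0 ≤ r) (hr1 : r ≤ 1) (t : ℝ) : UU a r t ≤ BB a r := by
  unfold UU BB
  have h1 : Real.cos t ≤ 1 := Real.cos_le_one t
  have h2 : 0 ≤ r * (a * (1 - r)) := mul_nonneg hr0 (mul_nonneg ha.le (by linarith))
  nlinarith

theorem le_UU {a r : ℝ} (ha : 0 < a) (hr0 : 0 ≤ r) (hr1 : r ≤ 1) (t : ℝ) :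
    ((1 + a) * r - a) ^ 2 ≤ UU a r t := by
  unfold UU
  have h1 : -1 ≤ Real.cos t := Real.neg_one_le_cos t
  have h2 : 0 ≤ r * (a * (1 - r)) := mul_nonneg hr0 (mul_nonneg ha.le (by linarith))
  nlinarith

theorem BB_mono {a q r : ℝ} (ha : 0 < a) (ha1 : a < 1) (hq : 0 ≤ q) (hqr : q ≤ r) :
    BB a q ≤ BB a r := by
  unfold BB
  have h1 : 0 ≤ (1 - a) * q := mul_nonneg (by linarith) hq
  have h2 : (1 - a) * q ≤ (1 - a) * r := mul_le_mul_of_nonneg_left hqr (by linarith)
  nlinarith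

theorem EE_smooth (a : ℝ) {h : ℝ → ℝ} (hh : ContDiff ℝ ∞ h) : ContDiff ℝ ∞ (EE a h) := by
  refine contDiff_param (E := ℝ) (fun r t => h (UU a r t) * Real.cos t) ?_ _ _
  have h1 : ContDiff ℝ ∞ fun p : ℝ × ℝ => Real.cos p.2 := Real.contDiff_cos.comp contDiff_snd
  refine ContDiff.mul ?_ h1
  refine hh.comp ?_
  unfold UU
  fun_prop

theorem UU_cont (a r : ℝ) : Continuous fun t => UU a r t := by
  unfold UU
  fun_prop

theorem EE_congr {a r : ℝ} {h h' : ℝ → ℝ} (H : ∀ t, h (UU a r t) = h' (UU a r t)) :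
    EE a h r = EE a h' r := by
  unfold EE
  simp_rw [H]

theorem step (hS : Solver) (hC : TaskC) (a r0 r1 : ℝ) (ha0 : 0 < a) (ha1 : a < 1) (hr0 : 0 < r0)
    (h01 : r0 < r1) (hr1 : r1 < 1)
    (hA : ∀ r ∈ Icc r0 r1, ((1 + a) * r - a) ^ 2 < BB a r0) (h : ℝ → ℝ) (hh : ContDiff ℝ ∞ h)
    (hE : ∀ r, 0 ≤ r → r ≤ r0 → EE a h r = 0) :
    ∃ h' : ℝ → ℝ, ContDiff ℝ ∞ h' ∧ (∀ u ≤ BB a r0, h' u = h u) ∧
      ∀ r, 0 ≤ r → r ≤ r1 → EE a h' r = 0 := by
  classical
  obtain ⟨k, hk, hkp, hkE⟩ := hC a r0 r1 ha0 ha1 hr0 h01 hr1 hA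
  have hEs := EE_smooth a hh
  set e : ℝ → ℝ := fun r => if r ≤ r0 then 0 else -EE a h r with he
  have heq : ∀ r, 0 ≤ r → e r = -EE a h r := by
    intro r hr
    by_cases h1 : r ≤ r0
    · simp [he, h1, hE r hr h1]
    · simp [he, h1]
  have hes : ContDiff ℝ ∞ e := by
    rw [contDiff_iff_contDiffAt]
    intro r
    by_cases hr : 0 < r
    · refine (hEs.neg.contDiffAt (x := r)).congr_of_eventuallyEq ?_
      filter_upwards [Ioi_mem_nhds hr] with s hs
      exact heq s (le_of_lt hs)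
    · refine (contDiffAt_const (c := (0 : ℝ))).congr_of_eventuallyEq ?_
      filter_upwards [Iio_mem_nhds (show r < r0 by linarith)] with s hs
      have : s ≤ r0 := le_of_lt hs
      simp [he, this]
  have he0 : ∀ r ≤ r0, e r = 0 := by
    intro r hr
    simp [he, hr]
  obtain ⟨w, hw, hw0, hwe⟩ := hS k r0 r1 h01 hk hkp e hes he0
  have hB0 : 0 < a + (1 - a) * r0 := by
    have : 0 < (1 - a) * r0 := mul_pos (by linarith) hr0
    linarith
  have hBpos : 0 < BB a r0 := by
    unfold BB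
    positivity
  set v : ℝ → ℝ := fun u => if u ≤ BB a r0 then 0 else w ((√u - a) / (1 - a)) with hv
  have hv0 : ∀ u ≤ BB a r0, v u = 0 := by
    intro u hu
    simp [hv, hu]
  have h1a : 0 < 1 - a := by linarith
  have hvw : ∀ u, 0 ≤ u → v u = w ((√u - a) / (1 - a)) := by
    intro u hu
    by_cases h1 : u ≤ BB a r0
    · rw [hv0 u h1, hw0]
      rw [div_le_iff₀ h1a]
      have : √u ≤ a + (1 - a) * r0 := by
        rw [Real.sqrt_le_left hB0.le]
        exact h1
      linarith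
    · simp [hv, h1]
  have hvs : ContDiff ℝ ∞ v := by
    rw [contDiff_iff_contDiffAt]
    intro u
    by_cases hu : 0 < u
    · have h1 : ContDiffAt ℝ ∞ (fun u : ℝ => w ((√u - a) / (1 - a))) u := by
        refine hw.contDiffAt.comp u ?_
        exact ((Real.contDiffAt_sqrt hu.ne').sub contDiffAt_const).div_const _
      refine h1.congr_of_eventuallyEq ?_
      filter_upwards [Ioi_mem_nhds hu] with s hs
      exact hvw s (le_of_lt hs)
    · refine (contDiffAt_const (c := (0 : ℝ))).congr_of_eventuallyEq ?_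
      filter_upwards [Iio_mem_nhds (show u < BB a r0 by linarith)] with s hs
      exact hv0 s (le_of_lt hs)
  have hwv : ∀ q, r0 ≤ q → w q = v (BB a q) := by
    intro q hq
    have hq0 : 0 ≤ a + (1 - a) * q := by
      have : (1 - a) * r0 ≤ (1 - a) * q := mul_le_mul_of_nonneg_left hq h1a.le
      linarith
    have h1 : 0 ≤ BB a q := by unfold BB; positivity
    rw [hvw _ h1]
    congr 1
    unfold BB
    rw [Real.sqrt_sq hq0]
    field_simp
    ring
  refine ⟨fun u => h u + v u, hh.add hvs, fun u hu => by simp [hv0 u hu], ?_⟩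
  intro r hr hrr
  have hadd : EE a (fun u => h u + v u) r = EE a h r + EE a v r := by
    unfold EE
    rw [← intervalIntegral.integral_add]
    · congr 1
      funext t
      ring
    · exact ((hh.continuous.comp (UU_cont a r)).mul Real.continuous_cos).intervalIntegrable _ _
    · exact ((hvs.continuous.comp (UU_cont a r)).mul Real.continuous_cos).intervalIntegrable _ _
  rw [hadd]
  rcases le_total r r0 with hr' | hr'
  · have h1 : EE a v r = EE a (fun _ => 0) r := by
      refine EE_congr fun t => ?_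
      refine hv0 _ ((UU_le ha0 hr (by linarith) t).trans (BB_mono ha0 ha1 hr hr'))
    rw [hE r hr hr', h1]
    simp [EE]
  · rw [hkE v w hvs.continuous hw.continuous hv0 hw0 hwv r ⟨hr', hrr⟩, hwe r ⟨hr', hrr⟩, heq r hr]
    ring

/-- every smooth radial function with compact support in `|z| < a` extends to a solution -/
theorem goal2 (hS : Solver) (hC : TaskC) (a : ℝ) (ha0 : 0 < a) (ha1 : a < 1) (h0 : ℝ → ℝ)
    (hh0s : ContDiff ℝ ∞ h0) (c2 : ℝ) (hc2 : c2 < a ^ 2) (hh0z : ∀ u, c2 ≤ u → h0 u = 0) :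
    ∃ h : ℝ → ℝ, ContDiffOn ℝ ∞ h (Iio 1) ∧ (∀ r, 0 ≤ r → r < 1 → EE a h r = 0) ∧
      ∀ u ≤ a ^ 2, h u = h0 u := by
  classical
  have h1a : 0 < 1 - a := by linarith
  set s0 : ℝ := √c2 with hs0
  have hs0a : s0 < a := by
    rw [hs0, Real.sqrt_lt' ha0]
    exact hc2
  have hs0n : 0 ≤ s0 := Real.sqrt_nonneg _
  have hs0c : c2 ≤ s0 ^ 2 := by
    rcases le_total 0 c2 with h | h
    · rw [hs0, Real.sq_sqrt h]
    · exact h.trans (sq_nonneg _)
  set z0 : ℝ := (a - s0) / (1 + a) with hz0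
  have hz0p : 0 < z0 := div_pos (by linarith) (by linarith)
  have hz01 : z0 < 1 := by
    rw [hz0, div_lt_one (by linarith)]
    linarith
  have hz0e : (1 + a) * z0 = a - s0 := by
    rw [hz0]
    field_simp
  -- radii
  set rs : ℕ → ℝ := fun n => 1 - (1 - a / 2) ^ n * (1 - z0) with hrs
  have hb0 : 0 < 1 - a / 2 := by linarith
  have hb1 : 1 - a / 2 < 1 := by linarith
  have hrs0 : rs 0 = z0 := by simp [hrs]
  have hrss : ∀ n, rs (n + 1) = rs n + a / 2 * (1 - rs n) := by
    intro n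
    simp only [hrs, pow_succ]
    ring
  have hrlt : ∀ n, rs n < 1 := by
    intro n
    have : 0 < (1 - a / 2) ^ n * (1 - z0) := mul_pos (pow_pos hb0 n) (by linarith)
    simp only [hrs]
    linarith
  have hrmono1 : ∀ n, rs n < rs (n + 1) := by
    intro n
    rw [hrss]
    have : 0 < a / 2 * (1 - rs n) := mul_pos (by linarith) (by linarith [hrlt n])
    linarith
  have hrpos : ∀ n, 0 < rs n := by
    intro n
    induction n with
    | zero => rw [hrs0]; exact hz0p
    | succ n ih => exact ih.trans (hrmono1 n)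
  have hrtend : Tendsto rs atTop (𝓝 1) := by
    have h1 : Tendsto (fun n : ℕ => (1 - a / 2) ^ n) atTop (𝓝 0) :=
      tendsto_pow_atTop_nhds_zero_of_lt_one hb0.le hb1
    have h2 := (h1.mul_const (1 - z0)).const_sub 1
    simpa [hrs] using h2
  -- initial function
  have hh0E : ∀ r, 0 ≤ r → r ≤ rs 0 → EE a h0 r = 0 := by
    intro r hr hr'
    rw [hrs0] at hr'
    have h1 : EE a h0 r = EE a (fun _ => 0) r := by
      refine EE_congr fun t => ?_
      have h2 := le_UU ha0 hr (by linarith) t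
      have h3 : c2 ≤ ((1 + a) * r - a) ^ 2 := by
        have : (1 + a) * r ≤ (1 + a) * z0 := mul_le_mul_of_nonneg_left hr' (by linarith)
        have h4 : s0 ≤ a - (1 + a) * r := by linarith
        nlinarith
      exact hh0z _ (by linarith)
    rw [h1]
    simp [EE]
  -- recursion
  have hstep : ∀ n, ∀ h : ℝ → ℝ, (ContDiff ℝ ∞ h ∧ ∀ r, 0 ≤ r → r ≤ rs n → EE a h r = 0) →
      ∃ h' : ℝ → ℝ, (ContDiff ℝ ∞ h' ∧ ∀ r, 0 ≤ r → r ≤ rs (n + 1) → EE a h' r = 0) ∧
        ∀ u ≤ BB a (rs n), h' u = h u := by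
    intro n h hh
    obtain ⟨h', h1, h2, h3⟩ := step hS hC a (rs n) (rs (n + 1)) ha0 ha1 (hrpos n) (hrmono1 n)
      (hrlt (n + 1)) (by
        intro r hr
        unfold BB
        have e1 := hrss n
        have e2 : 0 < 1 - rs n := by linarith [hrlt n]
        have e3 := hrpos n
        have e4 : (1 + a) * r - a < a + (1 - a) * rs n := by
          have : (1 + a) * r ≤ (1 + a) * (rs n + a / 2 * (1 - rs n)) :=
            mul_le_mul_of_nonneg_left (by rw [← e1]; exact hr.2) (by linarith)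
          nlinarith [mul_pos ha0 e2, mul_pos (mul_pos ha0 e2) h1a]
        have e5 : -(a + (1 - a) * rs n) < (1 + a) * r - a := by
          have h6 : 0 < (1 + a) * r := mul_pos (by linarith) (by linarith [hr.1])
          have h7 : 0 < (1 - a) * rs n := mul_pos h1a e3
          linarith
        exact sq_lt_sq' e5 e4) h hh.1 hh.2
    exact ⟨h', ⟨h1, h3⟩, h2⟩
  choose! nx hnx1 hnx2 using hstep
  let H : ℕ → (ℝ → ℝ) := fun n => Nat.rec h0 (fun n h => nx n h) n
  have hH0 : H 0 = h0 := rfl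
  have hHs : ∀ n, H (n + 1) = nx n (H n) := fun n => rfl
  have hHP : ∀ n, ContDiff ℝ ∞ (H n) ∧ ∀ r, 0 ≤ r → r ≤ rs n → EE a (H n) r = 0 := by
    intro n
    induction n with
    | zero => exact ⟨hh0s, hh0E⟩
    | succ n ih =>
      rw [hHs]
      exact hnx1 n (H n) ih
  have hHe : ∀ n, ∀ u ≤ BB a (rs n), H (n + 1) u = H n u := by
    intro n
    rw [hHs]
    exact hnx2 n (H n) (hHP n)
  have hBm : ∀ n m, n ≤ m → BB a (rs n) ≤ BB a (rs m) := by
    intro n m hnm
    exact BB_mono ha0 ha1 (hrpos n).le ((strictMono_nat_of_lt_succ hrmono1).monotone hnm)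
  have hHm : ∀ n m, n ≤ m → ∀ u ≤ BB a (rs n), H m u = H n u := by
    intro n m hnm
    induction m, hnm using Nat.le_induction with
    | base => intro u _; rfl
    | succ m hm ih =>
      intro u hu
      rw [hHe m u (hu.trans (hBm n m hm)), ih u hu]
  set hl : ℝ → ℝ := fun u => if hu : ∃ n, u ≤ BB a (rs n) then H (Nat.find hu) u else 0 with hhl
  have hle : ∀ n, ∀ u ≤ BB a (rs n), hl u = H n u := by
    intro n u hu
    have hex : ∃ n, u ≤ BB a (rs n) := ⟨n, hu⟩
    simp only [hhl, hex, dif_pos]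
    exact (hHm _ n (Nat.find_min' hex hu) u (Nat.find_spec hex)).symm
  have hBt : Tendsto (fun n => BB a (rs n)) atTop (𝓝 1) := by
    have h1 : Continuous fun q : ℝ => BB a q := by unfold BB; fun_prop
    have h2 := (h1.tendsto 1).comp hrtend
    have h3 : BB a 1 = 1 := by unfold BB; ring
    rwa [h3] at h2
  refine ⟨hl, ?_, ?_, ?_⟩
  · intro u hu
    obtain ⟨n, hn⟩ := (hBt.eventually (lt_mem_nhds (show u < 1 from hu))).exists
    refine ContDiffAt.contDiffWithinAt ?_
    refine ((hHP n).1.contDiffAt (x := u)).congr_of_eventuallyEq ?_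
    filter_upwards [Iio_mem_nhds hn] with s hs
    exact hle n s (le_of_lt hs)
  · intro r hr hr1
    obtain ⟨n, hn⟩ := (hrtend.eventually (lt_mem_nhds hr1)).exists
    have : EE a hl r = EE a (H n) r := by
      refine EE_congr fun t => ?_
      exact hle n _ ((UU_le ha0 hr hr1.le t).trans (BB_mono ha0 ha1 hr hn.le))
    rw [this]
    exact (hHP n).2 r hr hn.le
  · intro u hu
    have h1 : u ≤ BB a (rs 0) := by
      rw [hrs0]
      unfold BB
      have : 0 ≤ (1 - a) * z0 := by positivity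
      nlinarith
    rw [hle 0 u h1, hH0]

end Pool.Agent.H182R3.MO
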