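import Pool.Agent.H182R3.MO.Param

set_option autoImplicit false

open MeasureTheory Set Filter Topology
open scoped ContDiff Real BoundedContinuousFunction

namespace Pool.Agent.H182R3.MO

/-- the partial derivative in the first variable -/
noncomputable def pd (N : ℝ → ℝ → ℝ) (r q : ℝ) : ℝ :=
  fderiv ℝ (fun p : ℝ × ℝ => N p.1 p.2) (r, q) (1, 0)

theorem pd_smooth {N : ℝ → ℝ → ℝ} (hN : ContDiff ℝ ∞ (fun p : ℝ × ℝ => N p.1 p.2)) :
    ContDiff ℝ ∞ (fun p : ℝ × ℝ => pd N p.1 p.2) := by
  have h1 : ContDiff ℝ ∞ (fderiv ℝ (fun p : ℝ × ℝ => N p.1 p.2)) :=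
    hN.fderiv_right (m := ∞) (by simp)
  exact h1.clm_apply contDiff_const

theorem boot (w : ℝ → ℝ) (r0 : ℝ) (n : ℕ) : ContDiff ℝ n w → ∀ N : ℝ → ℝ → ℝ,
    ContDiff ℝ ∞ (fun p : ℝ × ℝ => N p.1 p.2) →
    ContDiff ℝ ((n + 1 : ℕ) : ℕ∞) (fun r => ∫ q in r0..r, N r q * w q) := by
  induction n with
  | zero =>
    intro hw N hN
    have hwc : Continuous w := hw.continuous
    have hd := leibniz N hN w hwc r0
    have hNd : Continuous fun r : ℝ => N r r :=
      hN.continuous.comp (by fun_prop : Continuous fun r : ℝ => (r, r))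
    have h2 : Continuous fun r : ℝ => ∫ q in r0..r, pd N r q * w q :=
      continuous_iff_continuousAt.2 fun r =>
        (leibniz (pd N) (pd_smooth hN) w hwc r0 r).continuousAt
    have h3 : ContDiff ℝ 1 (fun r => ∫ q in r0..r, N r q * w q) := by
      rw [contDiff_one_iff_deriv]
      refine ⟨fun r => (hd r).differentiableAt, ?_⟩
      have : deriv (fun r => ∫ q in r0..r, N r q * w q) =
          fun r => N r r * w r + ∫ q in r0..r, pd N r q * w q := by
        funext r
        exact (hd r).deriv
      rw [this]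
      exact (hNd.mul hwc).add h2
    exact_mod_cast h3
  | succ n ih =>
    intro hw N hN
    have hwc : Continuous w := hw.continuous
    have hd := leibniz N hN w hwc r0
    have h1 := ih (hw.of_le (by exact_mod_cast Nat.le_succ n)) (pd N) (pd_smooth hN)
    have hNd : ContDiff ℝ ∞ fun r : ℝ => N r r :=
      hN.comp (by fun_prop : ContDiff ℝ ∞ fun r : ℝ => (r, r))
    have h3 : ContDiff ℝ (((n + 1 : ℕ) : WithTop ℕ∞) + 1) (fun r => ∫ q in r0..r, N r q * w q) := by
      rw [contDiff_succ_iff_deriv]
      refine ⟨fun r => (hd r).differentiableAt, by simp, ?_⟩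
      have : deriv (fun r => ∫ q in r0..r, N r q * w q) =
          fun r => N r r * w r + ∫ q in r0..r, pd N r q * w q := by
        funext r
        exact (hd r).deriv
      rw [this]
      refine ContDiff.add ?_ ?_
      · exact (hNd.of_le (by exact_mod_cast le_top)).mul hw
      · exact_mod_cast h1
    exact_mod_cast h3

theorem smooth_of_eq (w g : ℝ → ℝ) (r0 : ℝ) (M : ℝ → ℝ → ℝ) (hw : Continuous w)
    (hM : ContDiff ℝ ∞ (fun p : ℝ × ℝ => M p.1 p.2)) (hg : ContDiff ℝ ∞ g)
    (he : ∀ r, w r = g r + ∫ q in r0..r, M r q * w q) : ContDiff ℝ ∞ w := by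
  rw [contDiff_infty]
  intro n
  induction n with
  | zero => exact contDiff_zero.2 hw
  | succ n ih =>
    have h1 := boot w r0 n ih M hM
    have h2 : w = fun r => g r + ∫ q in r0..r, M r q * w q := funext he
    rw [h2]
    refine ContDiff.add (hg.of_le (by exact_mod_cast le_top)) ?_
    exact_mod_cast h1

/-- continuous solution, kernel and right hand side vanishing for `r ≥ T` -/
theorem cont_sol (M : ℝ → ℝ → ℝ) (g : ℝ → ℝ) (r0 T : ℝ) (h0T : r0 ≤ T)
    (hM : Continuous (fun p : ℝ × ℝ => M p.1 p.2)) (hg : Continuous g) (hg0 : ∀ r ≤ r0, g r = 0)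
    (hMT : ∀ r, T ≤ r → ∀ q, M r q = 0) (hgT : ∀ r, T ≤ r → g r = 0) :
    ∃ w : ℝ → ℝ, Continuous w ∧ (∀ r ≤ r0, w r = 0) ∧
      ∀ r, w r = g r + ∫ q in r0..r, M r q * w q := by
  obtain ⟨C0, hC0⟩ := ((isCompact_Icc (a := r0) (b := T)).prod (isCompact_Icc (a := r0) (b := T))
    ).exists_bound_of_continuousOn hM.continuousOn
  set C : ℝ := max C0 0 with hCdef
  have hC : ∀ r ∈ Icc r0 T, ∀ q ∈ Icc r0 T, |M r q| ≤ C := fun r hr q hq =>
    (hC0 (r, q) ⟨hr, hq⟩).trans (le_max_left _ _)
  have hCn : 0 ≤ C := le_max_right _ _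
  set l : ℝ := 2 * C + 1 with hl
  have hlp : 0 < l := by positivity
  set c : ℝ → ℝ := fun r => max r0 (min r T) with hc
  have hcc : Continuous c := by fun_prop
  have hcm : ∀ r, c r ∈ Icc r0 T := fun r => ⟨le_max_left _ _, max_le h0T (min_le_right _ _)⟩
  have hcid : ∀ r ∈ Icc r0 T, c r = r := by
    intro r hr
    simp only [hc]
    rw [min_eq_left hr.2, max_eq_right hr.1]
  set A : (ℝ → ℝ) → ℝ → ℝ := fun om r => Real.exp (-(l * (c r - r0))) * g (c r) +
    ∫ q in r0..c r, Real.exp (-(l * (c r - q))) * M (c r) q * om q with hA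
  have hAcont : ∀ om : ℝ → ℝ, Continuous om → Continuous (A om) := by
    intro om hom
    refine Continuous.add ?_ ?_
    · exact (by fun_prop : Continuous fun r => Real.exp (-(l * (c r - r0)))).mul (hg.comp hcc)
    · have h1 : ∀ r, ∫ q in r0..c r, Real.exp (-(l * (c r - q))) * M (c r) q * om q =
          (c r - r0) * ∫ τ in (0 : ℝ)..1, Real.exp (-(l * (c r - (r0 + (c r - r0) * τ)))) *
            M (c r) (r0 + (c r - r0) * τ) * om (r0 + (c r - r0) * τ) := by
        intro r
        have := intervalIntegral.smul_integral_comp_add_mul (a := 0) (b := 1)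
          (f := fun q => Real.exp (-(l * (c r - q))) * M (c r) q * om q) (c r - r0) r0
        rw [smul_eq_mul] at this
        rw [this]
        congr 1 <;> ring
      simp_rw [h1]
      refine (hcc.sub continuous_const).mul ?_
      refine intervalIntegral.continuous_parametric_intervalIntegral_of_continuous' (μ := volume)
        (f := fun r τ => Real.exp (-(l * (c r - (r0 + (c r - r0) * τ)))) *
            M (c r) (r0 + (c r - r0) * τ) * om (r0 + (c r - r0) * τ)) ?_ 0 1
      simp only [Function.uncurry_def]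
      have hc1 : Continuous fun p : ℝ × ℝ => c p.1 := hcc.comp continuous_fst
      refine Continuous.mul (Continuous.mul ?_ ?_) ?_
      · fun_prop
      · exact hM.comp (by fun_prop : Continuous fun p : ℝ × ℝ => (c p.1, r0 + (c p.1 - r0) * p.2))
      · exact hom.comp (by fun_prop)
  have hdiff : ∀ om om' : ℝ → ℝ, Continuous om → Continuous om' → ∀ K : ℝ, (∀ r, |om r - om' r| ≤ K) →
      ∀ r, |A om r - A om' r| ≤ (1 / 2) * K := by
    intro om om' hom hom' K hK r
    have hK0 : 0 ≤ K := (abs_nonneg _).trans (hK 0)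
    have hi : ∀ om : ℝ → ℝ, Continuous om → IntervalIntegrable
        (fun q => Real.exp (-(l * (c r - q))) * M (c r) q * om q) volume r0 (c r) := by
      intro om hom
      refine Continuous.intervalIntegrable ?_ _ _
      refine Continuous.mul (Continuous.mul (by fun_prop) ?_) hom
      exact hM.comp (by fun_prop : Continuous fun q : ℝ => (c r, q))
    have h1 : A om r - A om' r = ∫ q in r0..c r, Real.exp (-(l * (c r - q))) * M (c r) q *
        (om q - om' q) := by
      simp only [hA]
      rw [add_sub_add_left_eq_sub, ← intervalIntegral.integral_sub (hi om hom) (hi om' hom')]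
      congr 1
      funext q
      ring
    rw [h1]
    have hr := hcm r
    have h2 : |∫ q in r0..c r, Real.exp (-(l * (c r - q))) * M (c r) q * (om q - om' q)| ≤
        ∫ q in r0..c r, Real.exp (-(l * (c r - q))) * (C * K) := by
      have h3 := intervalIntegral.norm_integral_le_of_norm_le (μ := volume) (a := r0) (b := c r)
        (f := fun q => Real.exp (-(l * (c r - q))) * M (c r) q * (om q - om' q))
        (g := fun q => Real.exp (-(l * (c r - q))) * (C * K)) hr.1
        (Eventually.of_forall fun q hq => by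
          rw [Real.norm_eq_abs, abs_mul, abs_mul, abs_of_pos (Real.exp_pos _), mul_assoc]
          refine mul_le_mul_of_nonneg_left ?_ (Real.exp_pos _).le
          exact mul_le_mul (hC _ hr q ⟨hq.1.le, hq.2.trans hr.2⟩) (hK q) (abs_nonneg _) hCn)
        (Continuous.intervalIntegrable (by fun_prop) _ _)
      simpa [Real.norm_eq_abs] using h3
    refine h2.trans ?_
    have h4 : ∫ q in r0..c r, Real.exp (-(l * (c r - q))) * (C * K) =
        (1 - Real.exp (-(l * (c r - r0)))) / l * (C * K) := by
      rw [intervalIntegral.integral_mul_const]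
      congr 1
      have hd : ∀ q ∈ uIcc r0 (c r), HasDerivAt (fun q => Real.exp (-(l * (c r - q))) / l)
          (Real.exp (-(l * (c r - q)))) q := by
        intro q _
        have h5 : HasDerivAt (fun q => -(l * (c r - q))) l q := by
          have h := (((hasDerivAt_id q).const_sub (c r)).const_mul l).neg
          have e : -(l * -1) = l := by ring
          rw [e] at h
          exact h
        have h6 := h5.exp.div_const l
        rw [mul_div_assoc, div_self hlp.ne', mul_one] at h6
        exact h6
      rw [intervalIntegral.integral_eq_sub_of_hasDerivAt hd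
        (Continuous.intervalIntegrable (by fun_prop) _ _)]
      simp
      ring
    rw [h4]
    have h7 : (1 - Real.exp (-(l * (c r - r0)))) / l ≤ 1 / l := by
      gcongr
      linarith [Real.exp_pos (-(l * (c r - r0)))]
    have h8 : 1 / l * (C * K) ≤ 1 / 2 * K := by
      rw [div_mul_eq_mul_div, one_mul, div_le_iff₀ hlp]
      nlinarith
    refine le_trans (mul_le_mul_of_nonneg_right h7 (mul_nonneg hCn hK0)) h8
  have hbdd : ∀ om : ℝ → ℝ, Continuous om → ∃ K, ∀ r, |A om r| ≤ K := by
    intro om hom
    obtain ⟨K, hK⟩ := (isCompact_Icc (a := r0) (b := T)).exists_bound_of_continuousOn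
      (hAcont om hom).continuousOn
    refine ⟨K, fun r => ?_⟩
    have h1 := hK (c r) (hcm r)
    have h2 : A om (c r) = A om r := by
      simp only [hA, hcid (c r) (hcm r)]
    rw [h2] at h1
    exact h1
  let B : (ℝ →ᵇ ℝ) → (ℝ →ᵇ ℝ) := fun om => BoundedContinuousFunction.ofNormedAddCommGroup (A om)
    (hAcont om om.continuous) (hbdd om om.continuous).choose (hbdd om om.continuous).choose_spec
  have hBc : ContractingWith (1 / 2 : NNReal) B := by
    refine ⟨by norm_num, LipschitzWith.of_dist_le_mul fun om om' => ?_⟩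
    rw [BoundedContinuousFunction.dist_le (by positivity)]
    intro r
    have := hdiff om om' om.continuous om'.continuous (dist om om')
      (fun r => by
        have := BoundedContinuousFunction.dist_coe_le_dist (f := om) (g := om') r
        rwa [Real.dist_eq] at this) r
    rw [Real.dist_eq]
    have h2 : ((1 / 2 : NNReal) : ℝ) = 1 / 2 := by norm_num
    rw [h2]
    exact this
  obtain ⟨om, hom⟩ : ∃ om : ℝ →ᵇ ℝ, B om = om :=
    ⟨ContractingWith.fixedPoint B hBc, hBc.fixedPoint_isFixedPt⟩
  have home : ∀ r, om r = A om r := fun r => by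
    conv_lhs => rw [← hom]
    rfl
  set w : ℝ → ℝ := fun r => Real.exp (l * (c r - r0)) * om (c r) with hw
  have hwc : Continuous w := by
    have h1 : Continuous fun r => om (c r) := om.continuous.comp hcc
    exact (by fun_prop : Continuous fun r => Real.exp (l * (c r - r0))).mul h1
  have hwe : ∀ r, w r = g (c r) + ∫ q in r0..c r, M (c r) q * w q := by
    intro r
    have h1 := home (c r)
    simp only [hA, hcid (c r) (hcm r)] at h1
    simp only [hw]
    rw [h1, mul_add, ← mul_assoc, ← Real.exp_add, ← intervalIntegral.integral_const_mul]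
    congr 1
    · simp
    · refine intervalIntegral.integral_congr fun q hq => ?_
      rw [uIcc_of_le (hcm r).1] at hq
      have hq' : c q = q := hcid q ⟨hq.1, hq.2.trans (hcm r).2⟩
      simp only [hq']
      have h2 : Real.exp (l * (q - r0)) =
          Real.exp (l * (c r - r0)) * Real.exp (-(l * (c r - q))) := by
        rw [← Real.exp_add]
        congr 1
        ring
      rw [h2]
      ring
  have hw0 : ∀ r ≤ r0, w r = 0 := by
    intro r hr
    have h1 : c r = r0 := by
      simp only [hc]
      rw [min_eq_left (hr.trans h0T), max_eq_left hr]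
    rw [hwe, h1, hg0 r0 le_rfl]
    simp
  refine ⟨w, hwc, hw0, fun r => ?_⟩
  rcases le_total r r0 with h | h
  · rw [hw0 r h, hg0 r h, zero_add]
    symm
    have h2 : ∫ q in r0..r, M r q * w q = ∫ q in r0..r, (0 : ℝ) := by
      refine intervalIntegral.integral_congr fun q hq => ?_
      rw [uIcc_of_ge h] at hq
      simp [hw0 q hq.2]
    rw [h2]
    simp
  · rcases le_total r T with h' | h'
    · have := hwe r
      rwa [hcid r ⟨h, h'⟩] at this
    · have h1 : c r = T := by
        simp only [hc]
        rw [min_eq_right h', max_eq_right h0T]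
      rw [hwe, h1, hgT T le_rfl, hgT r h']
      simp [hMT T le_rfl, hMT r h']

theorem taskV : TaskV := by
  intro M g r0 r1 h01 hM hg hg0
  set χ : ℝ → ℝ := fun r => Real.smoothTransition (r1 + 1 - r) with hχ
  have hχs : ContDiff ℝ ∞ χ := Real.smoothTransition.contDiff.comp (by fun_prop)
  have hχ1 : ∀ r ≤ r1, χ r = 1 := fun r hr => Real.smoothTransition.one_of_one_le (by linarith)
  have hχ0 : ∀ r, r1 + 1 ≤ r → χ r = 0 := fun r hr =>
    Real.smoothTransition.zero_of_nonpos (by linarith)
  have hM' : ContDiff ℝ ∞ (fun p : ℝ × ℝ => χ p.1 * M p.1 p.2) := (hχs.comp contDiff_fst).mul hM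
  have hg' : ContDiff ℝ ∞ (fun r => χ r * g r) := hχs.mul hg
  obtain ⟨w, hw, hw0, hwe⟩ := cont_sol (fun r q => χ r * M r q) (fun r => χ r * g r) r0 (r1 + 1)
    (by linarith) hM'.continuous hg'.continuous (fun r hr => by simp [hg0 r hr])
    (fun r hr q => by simp [hχ0 r hr]) (fun r hr => by simp [hχ0 r hr])
  refine ⟨w, smooth_of_eq w _ r0 _ hw hM' hg' hwe, hw0, fun r hr => ?_⟩
  rw [hwe r]
  simp only [hχ1 r hr.2, one_mul]

end Pool.Agent.H182R3.MO
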