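import Pool.Agent.H182R3.MO.Iter
import Pool.Agent.H182R3.MO.V
import Pool.Agent.H138R3.MO.TaskP
import Pool.Agent.H385R3.MO_C
import Pool.Agent.H725R3.MO_F

set_option autoImplicit false

open MeasureTheory Set Filter Topology
open scoped ContDiff Real

namespace Pool.Agent.H182R3.MO

open Pool.Agent.H725R3.MOF

/-- from the radial equation to contour integrals (proof by helper725, from `MO_F.lean`) -/
theorem circ (a : ℝ) (ha : 0 < a) (ha1 : a < 1) (h : ℝ → ℝ) (hh : ContDiffOn ℝ ∞ h (Iio 1))
    (hE : ∀ r, 0 ≤ r → r < 1 → EE a h r = 0) :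
    ContDiffOn ℝ ∞ (fun z : ℂ => ((h (‖z‖ ^ 2) : ℝ) : ℂ)) (Metric.ball 0 1) ∧
    (∀ z : ℂ, ‖z‖ < 1 →
      circleIntegral (fun z : ℂ => ((h (‖z‖ ^ 2) : ℝ) : ℂ)) z (a * (1 - ‖z‖)) = 0) := by
  refine ⟨?_, ?_⟩
  · have h1 : ContDiffOn ℝ ∞ (fun z : ℂ => h (‖z‖ ^ 2)) (Metric.ball 0 1) := by
      refine hh.comp (contDiff_norm_sq ℝ).contDiffOn ?_
      intro z hz
      rw [mem_ball_zero_iff] at hz
      have := norm_nonneg z
      simp only [mem_Iio]
      nlinarith
    exact Complex.ofRealCLM.contDiff.comp_contDiffOn h1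
  · intro z hz
    set r := ‖z‖ with hr
    set φ := Complex.arg z with hφ
    set R := a * (1 - r) with hR
    have hr0 : 0 ≤ r := norm_nonneg z
    have hcont : Continuous fun t : ℝ => h (UU a r t) := by
      have h1 := hh.continuousOn
      refine h1.comp_continuous (by unfold UU; fun_prop) fun t => UU_lt ha ha1 hr0 hz t
    set F : ℝ → ℂ := fun t => Complex.exp ((t : ℂ) * Complex.I) * ((h (UU a r t) : ℝ) : ℂ) with hF
    have hFc : Continuous F := by
      refine Continuous.mul (by fun_prop) (Complex.continuous_ofReal.comp hcont)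
    have hFper : Function.Periodic F (2 * π) := by
      intro t
      simp only [hF]
      rw [UU_per]
      congr 1
      push_cast
      rw [add_mul, Complex.exp_periodic]
    have e1 : circleIntegral (fun z : ℂ => ((h (‖z‖ ^ 2) : ℝ) : ℂ)) z R =
        ((R : ℂ) * Complex.I * Complex.exp (φ * Complex.I)) * ∫ θ in (0 : ℝ)..(2 * π), F (θ - φ) := by
      rw [circleIntegral, ← intervalIntegral.integral_const_mul]
      refine intervalIntegral.integral_congr fun θ _ => ?_
      simp only [deriv_circleMap, smul_eq_mul, circleMap_zero, hF]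
      rw [norm_circle a z θ]
      have e2 : Complex.exp ((θ : ℂ) * Complex.I) = Complex.exp (φ * Complex.I) *
          Complex.exp (((θ - φ : ℝ) : ℂ) * Complex.I) := by
        rw [← Complex.exp_add]
        congr 1
        push_cast
        ring
      rw [e2]
      ring
    have e3 : ∫ θ in (0 : ℝ)..(2 * π), F (θ - φ) = ∫ t in (-π)..π, F t := by
      rw [intervalIntegral.integral_comp_sub_right (fun t => F t) φ]
      have h1 := hFper.intervalIntegral_add_eq (0 - φ) (-π)
      rw [show (0 - φ + 2 * π) = 2 * π - φ by ring, show (-π + 2 * π) = π by ring] at h1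
      exact h1
    have e4 : ∫ t in (-π)..π, F t = 2 * ((EE a h r : ℝ) : ℂ) := by
      rw [← intervalIntegral.integral_add_adjacent_intervals (b := 0)
        (hFc.intervalIntegrable _ _) (hFc.intervalIntegrable _ _)]
      have h1 : ∫ t in (-π)..0, F t = ∫ t in (0 : ℝ)..π, F (-t) := by
        rw [intervalIntegral.integral_comp_neg]
        simp
      have hFn : Continuous fun t => F (-t) := hFc.comp continuous_neg
      rw [h1, ← intervalIntegral.integral_add (hFn.intervalIntegrable _ _)
        (hFc.intervalIntegrable _ _)]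
      unfold EE
      rw [← intervalIntegral.integral_ofReal, ← intervalIntegral.integral_const_mul]
      refine intervalIntegral.integral_congr fun t _ => ?_
      simp only [hF, UU_even]
      push_cast
      rw [Complex.cos]
      rw [neg_mul]
      ring
    rw [e1, e3, e4, hE r hr0 hz]
    simp

theorem solver_done : Solver := solver taskV Pool.Agent.H138R3.MO.taskP

theorem extension (a : ℝ) (ha0 : 0 < a) (ha1 : a < 1) (φ : ℝ → ℝ) (hφ : ContDiff ℝ ∞ φ)
    (hc : ∃ c < a ^ 2, ∀ u, c ≤ u → φ u = 0) :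
    ∃ h : ℝ → ℝ, (∀ u ≤ a ^ 2, h u = φ u) ∧ ContDiffOn ℝ ∞ h (Iio 1) ∧
      ∀ r, 0 ≤ r → r < 1 → EE a h r = 0 := by
  obtain ⟨c, hc1, hc2⟩ := hc
  obtain ⟨h, h1, h2, h3⟩ := goal2 solver_done Pool.Agent.H385R3.MO.t a ha0 ha1 φ hφ c hc1 hc2
  exact ⟨h, h3, h1, h2⟩

end Pool.Agent.H182R3.MO
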