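import Pool.Agent.H182R3.MO.Stmts

set_option autoImplicit false

open MeasureTheory Set Filter Topology
open scoped ContDiff Real

namespace Pool.Agent.H182R3.MO

theorem contDiff_param_aux {E : Type} [NormedAddCommGroup E] [NormedSpace ℝ E]
    [FiniteDimensional ℝ E] (a b : ℝ) (m : ℕ) : ∀ (G : Type) [NormedAddCommGroup G]
    [NormedSpace ℝ G] [CompleteSpace G] (F : E → ℝ → G),
    ContDiff ℝ m (fun p : E × ℝ => F p.1 p.2) → ContDiff ℝ m (fun x => ∫ t in a..b, F x t) := by
  have hproper : ProperSpace E := FiniteDimensional.proper_real E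
  induction m with
  | zero =>
    intro G _ _ _ F hF
    have h0 : Continuous (Function.uncurry F) := hF.continuous
    have h1 := intervalIntegral.continuous_parametric_intervalIntegral_of_continuous'
      (μ := volume) h0 a b
    exact contDiff_zero.mpr h1
  | succ m ih =>
    intro G _ _ _ F hF
    have hF' : ContDiff ℝ ((m : WithTop ℕ∞) + 1) (fun p : E × ℝ => F p.1 p.2) := by
      exact_mod_cast hF
    have hcF : Continuous (fun p : E × ℝ => F p.1 p.2) := hF'.continuous
    set D : E → ℝ → (E →L[ℝ] G) := fun x t =>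
      (fderiv ℝ (fun p : E × ℝ => F p.1 p.2) (x, t)).comp (ContinuousLinearMap.inl ℝ E ℝ) with hD
    have hDc : ContDiff ℝ m (fun p : E × ℝ => D p.1 p.2) := by
      have h1 : ContDiff ℝ m (fderiv ℝ (fun p : E × ℝ => F p.1 p.2)) :=
        hF'.fderiv_right le_rfl
      exact h1.clm_comp contDiff_const
    have hDcont : Continuous (fun p : E × ℝ => D p.1 p.2) := hDc.continuous
    have hder : ∀ x t, HasFDerivAt (fun x => F x t) (D x t) x := by
      intro x t
      have h1 : HasFDerivAt (fun p : E × ℝ => F p.1 p.2)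
          (fderiv ℝ (fun p : E × ℝ => F p.1 p.2) (x, t)) (x, t) :=
        (hF'.differentiable (by simp) (x, t)).hasFDerivAt
      have h2 : HasFDerivAt (𝕜 := ℝ) (fun e : E => (e, t)) (ContinuousLinearMap.inl ℝ E ℝ) x :=
        hasFDerivAt_prodMk_left x t
      exact HasFDerivAt.comp (g := fun p : E × ℝ => F p.1 p.2) (f := fun e : E => (e, t)) x h1 h2
    have key : ContDiff ℝ ((m : WithTop ℕ∞) + 1) (fun x => ∫ t in a..b, F x t) := by
      rw [contDiff_succ_iff_hasFDerivAt]
      refine ⟨fun x => ∫ t in a..b, D x t, ih (E →L[ℝ] G) D hDc, fun x => ?_⟩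
      obtain ⟨C, hC⟩ := ((isCompact_closedBall x 1).prod (isCompact_uIcc (a := a) (b := b))
        ).exists_bound_of_continuousOn hDcont.continuousOn
      refine intervalIntegral.hasFDerivAt_integral_of_dominated_of_fderiv_le
        (s := Metric.closedBall x 1) (bound := fun _ => C)
        (Metric.closedBall_mem_nhds x one_pos) ?_ ?_ ?_ ?_ ?_ ?_
      · refine Eventually.of_forall fun y => ?_
        exact (hcF.comp (continuous_const.prodMk continuous_id)).aestronglyMeasurable
      · exact (hcF.comp (continuous_const.prodMk continuous_id)).intervalIntegrable _ _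
      · exact (hDcont.comp (continuous_const.prodMk continuous_id)).aestronglyMeasurable
      · refine Eventually.of_forall fun t ht y hy => ?_
        exact hC (y, t) ⟨hy, uIoc_subset_uIcc ht⟩
      · exact intervalIntegrable_const
      · exact Eventually.of_forall fun t _ y _ => hder y t
    exact_mod_cast key

/-- smoothness of parameter integrals -/
theorem contDiff_param {E : Type} [NormedAddCommGroup E] [NormedSpace ℝ E] [FiniteDimensional ℝ E]
    (F : E → ℝ → ℝ) (hF : ContDiff ℝ ∞ (fun p : E × ℝ => F p.1 p.2)) (a b : ℝ) :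
    ContDiff ℝ ∞ (fun x => ∫ t in a..b, F x t) := by
  rw [contDiff_infty]
  intro n
  exact contDiff_param_aux a b n ℝ F (hF.of_le (by exact_mod_cast le_top))

/-- a globally smooth function equal to `1 / x` for `x ≥ m` -/
noncomputable def Sinv (m x : ℝ) : ℝ := Real.smoothTransition (2 * x / m - 1) * x⁻¹

theorem Sinv_eq {m x : ℝ} (hm : 0 < m) (hx : m ≤ x) : Sinv m x = x⁻¹ := by
  rw [Sinv, Real.smoothTransition.one_of_one_le, one_mul]
  rw [le_sub_iff_add_le, le_div_iff₀ hm]
  linarith

theorem Sinv_smooth {m : ℝ} (hm : 0 < m) : ContDiff ℝ ∞ (Sinv m) := by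
  rw [contDiff_iff_contDiffAt]
  intro x
  by_cases hx : 0 < x
  · unfold Sinv
    refine ContDiffAt.mul ?_ (contDiffAt_id.inv hx.ne')
    exact (Real.smoothTransition.contDiff.comp (by fun_prop : ContDiff ℝ ∞
      fun x : ℝ => 2 * x / m - 1)).contDiffAt
  · have h1 : Sinv m =ᶠ[𝓝 x] fun _ => 0 := by
      have h2 : Iio (m / 2) ∈ 𝓝 x := Iio_mem_nhds (by linarith)
      filter_upwards [h2] with y hy
      rw [Sinv, Real.smoothTransition.zero_of_nonpos, zero_mul]
      rw [sub_nonpos, div_le_one hm]
      have : y < m / 2 := hy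
      linarith
    exact contDiffAt_const.congr_of_eventuallyEq h1

/-- Leibniz rule -/
theorem leibniz (N : ℝ → ℝ → ℝ) (hN : ContDiff ℝ ∞ (fun p : ℝ × ℝ => N p.1 p.2)) (w : ℝ → ℝ)
    (hw : Continuous w) (r0 r : ℝ) :
    HasDerivAt (fun r => ∫ q in r0..r, N r q * w q)
      (N r r * w r + ∫ q in r0..r, (fderiv ℝ (fun p : ℝ × ℝ => N p.1 p.2) (r, q) (1, 0)) * w q) r := by
  have hNc : Continuous (fun p : ℝ × ℝ => N p.1 p.2) := hN.continuous
  have hDc : Continuous (fun p : ℝ × ℝ => fderiv ℝ (fun p : ℝ × ℝ => N p.1 p.2) p (1, 0)) := by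
    have := hN.continuous_fderiv (by simp)
    exact this.clm_apply continuous_const
  have hsplit : (fun s => ∫ q in r0..s, N s q * w q) =
      fun s => (∫ q in r..s, N s q * w q) + ∫ q in r0..r, N s q * w q := by
    funext s
    rw [add_comm, intervalIntegral.integral_add_adjacent_intervals]
    · exact Continuous.intervalIntegrable ((hNc.comp (continuous_const.prodMk continuous_id)).mul hw) _ _
    · exact Continuous.intervalIntegrable ((hNc.comp (continuous_const.prodMk continuous_id)).mul hw) _ _
  rw [hsplit]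
  refine HasDerivAt.add ?_ ?_
  · -- moving end point
    set H : ℝ → ℝ := fun s => ∫ τ in (0 : ℝ)..1, N s (r + (s - r) * τ) * w (r + (s - r) * τ) with hH
    have hHc : Continuous H := by
      refine intervalIntegral.continuous_parametric_intervalIntegral_of_continuous' (μ := volume)
        (f := fun s τ => N s (r + (s - r) * τ) * w (r + (s - r) * τ)) ?_ 0 1
      simp only [Function.uncurry_def]
      refine Continuous.mul ?_ ?_
      · exact hNc.comp (by fun_prop : Continuous fun p : ℝ × ℝ => (p.1, r + (p.1 - r) * p.2))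
      · exact hw.comp (by fun_prop)
    have hG : ∀ s, ∫ q in r..s, N s q * w q = (s - r) * H s := by
      intro s
      have := intervalIntegral.smul_integral_comp_add_mul (a := 0) (b := 1)
        (f := fun q => N s q * w q) (s - r) r
      rw [smul_eq_mul] at this
      rw [hH]
      simp only
      rw [this]
      congr 1 <;> ring
    have hH0 : H r = N r r * w r := by simp [hH]
    simp_rw [hG]
    rw [hasDerivAt_iff_tendsto_slope, ← hH0]
    have h1 : Tendsto H (𝓝[≠] r) (𝓝 (H r)) := hHc.continuousAt.tendsto.mono_left nhdsWithin_le_nhds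
    refine h1.congr' ?_
    filter_upwards [self_mem_nhdsWithin] with s hs
    have hs' : s - r ≠ 0 := sub_ne_zero.2 hs
    rw [slope_def_field]
    field_simp
    ring
  · -- parameter
    obtain ⟨C, hC⟩ := ((isCompact_closedBall r 1).prod (isCompact_uIcc (a := r0) (b := r))
      ).exists_bound_of_continuousOn (f := fun p : ℝ × ℝ =>
        fderiv ℝ (fun p : ℝ × ℝ => N p.1 p.2) p (1, 0) * w p.2)
        (hDc.mul (hw.comp continuous_snd)).continuousOn
    have := intervalIntegral.hasDerivAt_integral_of_dominated_loc_of_deriv_le (μ := volume)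
      (F := fun s q => N s q * w q) (F' := fun s q =>
        fderiv ℝ (fun p : ℝ × ℝ => N p.1 p.2) (s, q) (1, 0) * w q) (x₀ := r)
      (s := Metric.ball r 1) (a := r0) (b := r) (bound := fun _ => C)
      (Metric.ball_mem_nhds r one_pos)
      (Eventually.of_forall fun y =>
        (((hNc.comp (continuous_const.prodMk continuous_id)).mul hw)).aestronglyMeasurable)
      (((hNc.comp (continuous_const.prodMk continuous_id)).mul hw).intervalIntegrable _ _)
      (((hDc.comp (continuous_const.prodMk continuous_id)).mul hw).aestronglyMeasurable)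
      (Eventually.of_forall fun t ht y hy => hC (y, t)
        ⟨Metric.ball_subset_closedBall hy, uIoc_subset_uIcc ht⟩)
      intervalIntegrable_const
      (Eventually.of_forall fun t _ y _ => ?_)
    · exact this.2
    · have h1 : HasFDerivAt (fun p : ℝ × ℝ => N p.1 p.2)
          (fderiv ℝ (fun p : ℝ × ℝ => N p.1 p.2) (y, t)) (y, t) :=
        (hN.differentiable (by simp) (y, t)).hasFDerivAt
      have h2 : HasDerivAt (fun s : ℝ => (s, t)) ((1 : ℝ), (0 : ℝ)) y :=
        (hasDerivAt_id y).prodMk (hasDerivAt_const y t)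
      exact (h1.comp_hasDerivAt y h2).mul_const (w t)

end Pool.Agent.H182R3.MO
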