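import Pool.Agent.H182R3.MO.Param

set_option autoImplicit false

open MeasureTheory Set Filter Topology
open scoped ContDiff Real

namespace Pool.Agent.H182R3.MO

/-- `x ↦ φ (s - x ^ 2)` has compact support -/
theorem hcs_sq {r0 : ℝ} {F : ℝ → ℝ} {s : ℝ} (h0 : ∀ x, s - x ^ 2 ≤ r0 → F x = 0) :
    HasCompactSupport F := by
  refine HasCompactSupport.intro (K := Icc (-(√|s - r0| + 1)) (√|s - r0| + 1)) isCompact_Icc ?_
  intro x hx
  apply h0
  have h1 : √|s - r0| + 1 < |x| := by
    rw [mem_Icc, ← abs_le, not_le] at hx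
    exact hx
  have h2 : (√|s - r0|) ^ 2 = |s - r0| := Real.sq_sqrt (abs_nonneg _)
  have h3 : |x| ^ 2 = x ^ 2 := sq_abs x
  have h4 : s - r0 ≤ |s - r0| := le_abs_self _
  have h5 := Real.sqrt_nonneg |s - r0|
  nlinarith

/-- the integral over the line is an integral over a fixed compact interval -/
theorem int_eq {r0 r1 X : ℝ} (hX0 : 0 ≤ X) (hX : r1 - r0 ≤ X ^ 2) {s : ℝ} (hs : s ≤ r1) {F : ℝ → ℝ}
    (h0 : ∀ x, s - x ^ 2 ≤ r0 → F x = 0) : ∫ x : ℝ, F x = ∫ x in (-X)..X, F x := by
  rw [intervalIntegral.integral_of_le (by linarith)]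
  symm
  apply setIntegral_eq_integral_of_forall_compl_eq_zero
  intro x hx
  apply h0
  have h1 : X ≤ |x| := by
    by_contra h
    push Not at h
    rw [abs_lt] at h
    exact hx ⟨h.1, h.2.le⟩
  have h3 : |x| ^ 2 = x ^ 2 := sq_abs x
  nlinarith

theorem solver (hV : TaskV) (hP : TaskP) : Solver := by
  intro k r0 r1 h01 hk hpos e he he0
  -- the composed kernel
  set N : ℝ → ℝ → ℝ := fun r q =>
    (1 / 2) * ∫ θ in (-π)..π, k (r - (r - q) * Real.sin θ ^ 2) q with hNdef
  have hN : ContDiff ℝ ∞ (fun p : ℝ × ℝ => N p.1 p.2) := by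
    refine contDiff_const.mul ?_
    refine contDiff_param (E := ℝ × ℝ) (fun p θ => k (p.1 - (p.1 - p.2) * Real.sin θ ^ 2) p.2) ?_ _ _
    refine hk.comp (g := fun p : ℝ × ℝ => k p.1 p.2)
      (f := fun p : (ℝ × ℝ) × ℝ => (p.1.1 - (p.1.1 - p.1.2) * Real.sin p.2 ^ 2, p.1.2)) ?_
    have h1 : ContDiff ℝ ∞ fun p : (ℝ × ℝ) × ℝ => Real.sin p.2 := Real.contDiff_sin.comp contDiff_snd
    fun_prop
  have hNd : ∀ r, N r r = π * k r r := by
    intro r
    simp only [hNdef, sub_self, zero_mul, sub_zero, intervalIntegral.integral_const, smul_eq_mul]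
    ring
  -- positive lower bound for the diagonal
  have hkd : Continuous fun r => k r r := hk.continuous.comp (by fun_prop : Continuous fun r : ℝ => (r, r))
  obtain ⟨m, hm, hmN⟩ : ∃ m : ℝ, 0 < m ∧ ∀ r ∈ Icc r0 r1, m ≤ N r r := by
    obtain ⟨z, hz, hzm⟩ := isCompact_Icc.exists_isMinOn (nonempty_Icc.2 h01.le)
      (hkd.continuousOn (s := Icc r0 r1))
    refine ⟨π * k z z, mul_pos Real.pi_pos (hpos z hz), fun r hr => ?_⟩
    rw [hNd]
    exact mul_le_mul_of_nonneg_left (hzm hr) Real.pi_pos.le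
  -- the half integral of `e`
  set X : ℝ := √(r1 - r0) + 1 with hXdef
  have hX0 : 0 ≤ X := by positivity
  have hX : r1 - r0 ≤ X ^ 2 := by
    have h1 : (√(r1 - r0)) ^ 2 = r1 - r0 := Real.sq_sqrt (by linarith)
    have h2 := Real.sqrt_nonneg (r1 - r0)
    nlinarith
  set ψ : ℝ → ℝ := fun r => ∫ y in (-X)..X, e (r - y ^ 2) with hψdef
  have hψ : ContDiff ℝ ∞ ψ := by
    refine contDiff_param (E := ℝ) (fun r y => e (r - y ^ 2)) ?_ _ _
    exact he.comp (by fun_prop : ContDiff ℝ ∞ fun p : ℝ × ℝ => p.1 - p.2 ^ 2)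
  have hψ0 : ∀ r ≤ r0, ψ r = 0 := by
    intro r hr
    have : ∀ y : ℝ, e (r - y ^ 2) = 0 := fun y => he0 _ (by nlinarith [sq_nonneg y])
    simp [hψdef, this]
  have hψ' : ContDiff ℝ ∞ (deriv ψ) := (contDiff_infty_iff_deriv.1 hψ).2
  have hψ'0 : ∀ r ≤ r0, deriv ψ r = 0 := by
    have h1 : ∀ r < r0, deriv ψ r = 0 := by
      intro r hr
      have : ψ =ᶠ[𝓝 r] fun _ => 0 := by
        filter_upwards [Iio_mem_nhds hr] with y hy
        exact hψ0 y (le_of_lt hy)
      rw [this.deriv_eq]
      simp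
    have hcl : IsClosed {r | deriv ψ r = 0} := isClosed_eq hψ'.continuous continuous_const
    have : Iic r0 ⊆ {r | deriv ψ r = 0} := by
      rw [← closure_Iio]
      exact hcl.closure_subset_iff.2 fun r hr => h1 r hr
    exact this
  -- the second kind equation
  set D : ℝ → ℝ := fun r => Sinv m (N r r) with hDdef
  have hD : ContDiff ℝ ∞ D := (Sinv_smooth hm).comp
    (hN.comp (by fun_prop : ContDiff ℝ ∞ fun r : ℝ => (r, r)))
  have hDN : ∀ r ∈ Icc r0 r1, N r r * D r = 1 := by
    intro r hr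
    have h1 := hmN r hr
    rw [hDdef]
    simp only
    rw [Sinv_eq hm h1]
    exact mul_inv_cancel₀ (by linarith)
  set dN : ℝ → ℝ → ℝ := fun r q => fderiv ℝ (fun p : ℝ × ℝ => N p.1 p.2) (r, q) (1, 0) with hdN
  have hdNs : ContDiff ℝ ∞ (fun p : ℝ × ℝ => dN p.1 p.2) := by
    have h1 : ContDiff ℝ ∞ (fderiv ℝ (fun p : ℝ × ℝ => N p.1 p.2)) :=
      hN.fderiv_right (m := ∞) (by simp)
    exact h1.clm_apply contDiff_const
  obtain ⟨w, hw, hw0, hweq⟩ := hV (fun r q => -(D r * dN r q)) (fun r => D r * deriv ψ r) r0 r1 h01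
    (by
      refine ContDiff.neg ?_
      exact (hD.comp contDiff_fst).mul hdNs)
    (hD.mul hψ') (fun r hr => by simp [hψ'0 r hr])
  refine ⟨w, hw, hw0, ?_⟩
  have hwc : Continuous w := hw.continuous
  -- first kind equation for the composed kernel
  have hQ : ∀ r ∈ Icc r0 r1, ∫ q in r0..r, N r q * w q = ψ r := by
    have hd : ∀ r, HasDerivAt (fun r => (∫ q in r0..r, N r q * w q) - ψ r)
        (N r r * w r + (∫ q in r0..r, dN r q * w q) - deriv ψ r) r := fun r =>
      (leibniz N hN w hwc r0 r).sub ((hψ.differentiable (by simp)) r).hasDerivAt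
    have hz : ∀ r ∈ Icc r0 r1, N r r * w r + (∫ q in r0..r, dN r q * w q) - deriv ψ r = 0 := by
      intro r hr
      rw [hweq r hr]
      have h1 : ∫ q in r0..r, -(D r * dN r q) * w q = -(D r * ∫ q in r0..r, dN r q * w q) := by
        rw [← intervalIntegral.integral_const_mul, ← intervalIntegral.integral_neg]
        congr 1
        funext q
        ring
      rw [h1]
      have h2 := hDN r hr
      linear_combination (deriv ψ r - ∫ q in r0..r, dN r q * w q) * h2
    intro r hr
    have h1 := constant_of_has_deriv_right_zero (a := r0) (b := r1)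
      (f := fun r => (∫ q in r0..r, N r q * w q) - ψ r)
      (fun x _ => (hd x).continuousAt.continuousWithinAt)
      (fun x hx => by
        have := (hd x).hasDerivWithinAt (s := Ici x)
        rwa [hz x ⟨hx.1, hx.2.le⟩] at this) r hr
    simp only [intervalIntegral.integral_same, hψ0 r0 le_rfl, sub_zero] at h1
    linarith
  -- the function `φ`
  set φ1 : ℝ → ℝ := fun s => ∫ x in (-X)..X, w (s - x ^ 2) * k s (s - x ^ 2) with hφ1
  have hφ1c : Continuous φ1 := by
    refine intervalIntegral.continuous_parametric_intervalIntegral_of_continuous' (μ := volume)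
      (f := fun s x => w (s - x ^ 2) * k s (s - x ^ 2)) ?_ _ _
    simp only [Function.uncurry_def]
    refine Continuous.mul ?_ ?_
    · exact hwc.comp (by fun_prop)
    · exact hk.continuous.comp (by fun_prop : Continuous fun p : ℝ × ℝ => (p.1, p.1 - p.2 ^ 2))
  have hφ1e : ∀ s ≤ r1, ∫ x : ℝ, w (s - x ^ 2) * k s (s - x ^ 2) = φ1 s := by
    intro s hs
    exact int_eq hX0 hX hs (fun x hx => by rw [hw0 _ hx, zero_mul])
  have hφ10 : ∀ s ≤ r0, φ1 s = 0 := by
    intro s hs
    have : ∀ x : ℝ, w (s - x ^ 2) = 0 := fun x => hw0 _ (by nlinarith [sq_nonneg x])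
    simp [hφ1, this]
  have hψe : ∀ s ≤ r1, ∫ y : ℝ, e (s - y ^ 2) = ψ s := by
    intro s hs
    exact int_eq hX0 hX hs (fun x hx => he0 _ hx)
  -- double half integral
  have hJ : ∀ s ≤ r1, ∫ y : ℝ, (φ1 (s - y ^ 2) - e (s - y ^ 2)) = 0 := by
    intro s hs
    have hi1 : Integrable fun y : ℝ => φ1 (s - y ^ 2) :=
      (hφ1c.comp (by fun_prop : Continuous fun y : ℝ => s - y ^ 2)).integrable_of_hasCompactSupport
        (hcs_sq (r0 := r0) (s := s) fun x hx => hφ10 _ hx)
    have hi2 : Integrable fun y : ℝ => e (s - y ^ 2) :=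
      (he.continuous.comp (by fun_prop : Continuous fun y : ℝ => s - y ^ 2)).integrable_of_hasCompactSupport
        (hcs_sq (r0 := r0) (s := s) fun x hx => he0 _ hx)
    rw [integral_sub hi1 hi2, hψe s hs]
    rcases le_total s r0 with hsr | hsr
    · have : ∀ y : ℝ, φ1 (s - y ^ 2) = 0 := fun y => hφ10 _ (by nlinarith [sq_nonneg y])
      simp [this, hψ0 s hsr]
    · have h1 := hP (fun s q => w q * k s q) r0
        ((hwc.comp continuous_snd).mul hk.continuous)
        (fun s q hq => by simp [hw0 q hq]) s hsr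
      have h2 : ∫ y : ℝ, φ1 (s - y ^ 2) =
          ∫ y : ℝ, ∫ x : ℝ, w (s - y ^ 2 - x ^ 2) * k (s - y ^ 2) (s - y ^ 2 - x ^ 2) := by
        congr 1
        funext y
        exact (hφ1e _ (by nlinarith [sq_nonneg y])).symm
      rw [h2, h1, ← hQ s ⟨hsr, hs⟩, sub_eq_zero]
      congr 1
      funext q
      rw [hNdef]
      simp only
      rw [intervalIntegral.integral_const_mul]
      ring
  -- injectivity of the half integral
  set φ : ℝ → ℝ := fun s => φ1 (min s r1) - e (min s r1) with hφ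
  have hφc : Continuous φ := by
    have h1 : Continuous fun s : ℝ => min s r1 := by fun_prop
    exact (hφ1c.comp h1).sub (he.continuous.comp h1)
  have hφ0 : ∀ s ≤ r0, φ s = 0 := by
    intro s hs
    have : min s r1 = s := min_eq_left (by linarith)
    simp only [hφ, this, hφ10 s hs, he0 s hs, sub_zero]
  have hφe : ∀ s ≤ r1, φ s = φ1 s - e s := by
    intro s hs
    simp only [hφ, min_eq_left hs]
  have hI : ∀ r ∈ Icc r0 r1, ∫ q in r0..r, φ q = 0 := by
    intro r hr
    have h1 := hP (fun _ q => φ q) r0 (hφc.comp continuous_snd) (fun _ q hq => hφ0 q hq) r hr.1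
    have h2 : ∫ y : ℝ, ∫ x : ℝ, φ (r - y ^ 2 - x ^ 2) = 0 := by
      have : ∀ y : ℝ, ∫ x : ℝ, φ (r - y ^ 2 - x ^ 2) = 0 := by
        intro y
        have hy : r - y ^ 2 ≤ r1 := by nlinarith [sq_nonneg y, hr.2]
        rw [← hJ (r - y ^ 2) hy]
        congr 1
        funext x
        exact hφe _ (by nlinarith [sq_nonneg x])
      simp [this]
    rw [h2] at h1
    have h3 : ∀ q : ℝ, (1 / 2) * ∫ _θ in (-π)..π, φ q = π * φ q := by
      intro q
      rw [intervalIntegral.integral_const, smul_eq_mul]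
      ring
    simp_rw [h3] at h1
    rw [intervalIntegral.integral_const_mul] at h1
    have h4 : π ≠ 0 := Real.pi_ne_zero
    rcases mul_eq_zero.1 h1.symm with h | h
    · exact absurd h h4
    · exact h
  have hφz : ∀ r ∈ Icc r0 r1, φ r = 0 := by
    have h1 : ∀ r ∈ Ioo r0 r1, φ r = 0 := by
      intro r hr
      have hd : HasDerivAt (fun r => ∫ q in r0..r, φ q) (φ r) r :=
        intervalIntegral.integral_hasDerivAt_right (hφc.intervalIntegrable _ _)
          (hφc.stronglyMeasurableAtFilter _ _) hφc.continuousAt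
      have he : (fun r => ∫ q in r0..r, φ q) =ᶠ[𝓝 r] fun _ => 0 := by
        filter_upwards [Ioo_mem_nhds hr.1 hr.2] with s hs
        exact hI s ⟨hs.1.le, hs.2.le⟩
      have := hd.congr_of_eventuallyEq he.symm
      exact this.unique (hasDerivAt_const r 0)
    have hcl : IsClosed {r | φ r = 0} := isClosed_eq hφc continuous_const
    have : Icc r0 r1 ⊆ {r | φ r = 0} := by
      rw [← closure_Ioo h01.ne]
      exact hcl.closure_subset_iff.2 fun r hr => h1 r hr
    exact this
  intro r hr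
  rw [hφ1e r hr.2]
  have := hφz r hr
  rw [hφe r hr.2] at this
  linarith

end Pool.Agent.H182R3.MO
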